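import Pool.Agent.Lib.MP_094079_nt.FOdd

namespace Pool.Agent.Retired.MP_094079_nt.OddNorm

open Pool.Agent.Lib.MP_094079_nt

/-- For the forms `x + y - z`, `x + 2 y - 2 z`, `2 x - 2 y - z`, `2 x - y`, with `N` the sum of the
squares of the coefficients, every positive `n` with `N * n` not of the shape
`4 ^ j * (56 * l + 15)` or `4 ^ j * (56 * l + 47)` is representable. -/
theorem result (a b c : ℤ)
    (h : (a, b, c) ∈ ({(1, 1, -1), (1, 2, -2), (2, -2, -1), (2, -1, 0)} : Set (ℤ × ℤ × ℤ)))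
    (n : ℕ) (hn : 0 < n)
    (he : ∀ j l : ℕ, (a ^ 2 + b ^ 2 + c ^ 2) * (n : ℤ) ≠ 4 ^ j * (56 * (l : ℤ) + 15) ∧
      (a ^ 2 + b ^ 2 + c ^ 2) * (n : ℤ) ≠ 4 ^ j * (56 * (l : ℤ) + 47)) :
    ∃ x y z w k : ℕ, n = x ^ 2 + y ^ 2 + z ^ 2 + w ^ 2 ∧
      a * (x : ℤ) + b * (y : ℤ) + c * (z : ℤ) = 2 ^ k := by
  have key : ∀ N : ℕ, a ^ 2 + b ^ 2 + c ^ 2 = N → Gd N n := by
    intro N hN j l
    obtain ⟨h1, h2⟩ := he j l
    rw [hN] at h1 h2
    exact ⟨fun e => h1 (by exact_mod_cast e), fun e => h2 (by exact_mod_cast e)⟩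
  simp only [Set.mem_insert_iff, Set.mem_singleton_iff, Prod.mk.injEq] at h
  rcases h with ⟨rfl, rfl, rfl⟩ | ⟨rfl, rfl, rfl⟩ | ⟨rfl, rfl, rfl⟩ | ⟨rfl, rfl, rfl⟩
  · exact form111 n hn (key 3 (by norm_num))
  · exact form122 n hn (key 9 (by norm_num))
  · exact form221 n hn (key 9 (by norm_num))
  · exact form210 n hn (key 5 (by norm_num))

end Pool.Agent.Retired.MP_094079_nt.OddNorm
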