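import Pool.Agent.Lib.MP_094079_nt.F112
import Pool.Agent.Lib.MP_094079_nt.F121
import Pool.Agent.Lib.MP_094079_nt.F421

namespace Pool.Agent.Retired.MP_094079_nt.ThreeForms

open Pool.Agent.Lib.MP_094079_nt

/-- For the forms `x + y - 2 z`, `x + 2 y - z`, `4 x - 2 y - z` every positive integer is a sum of
four squares of natural numbers with the form equal to a power of two. -/
theorem result (a b c : ℤ)
    (h : (a, b, c) ∈ ({(1, 1, -2), (1, 2, -1), (4, -2, -1)} : Set (ℤ × ℤ × ℤ)))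
    (n : ℕ) (hn : 0 < n) :
    ∃ x y z w k : ℕ, n = x ^ 2 + y ^ 2 + z ^ 2 + w ^ 2 ∧
      a * (x : ℤ) + b * (y : ℤ) + c * (z : ℤ) = 2 ^ k := by
  simp only [Set.mem_insert_iff, Set.mem_singleton_iff, Prod.mk.injEq] at h
  rcases h with ⟨rfl, rfl, rfl⟩ | ⟨rfl, rfl, rfl⟩ | ⟨rfl, rfl, rfl⟩
  · exact form112 n hn
  · exact form121 n hn
  · exact form421 n hn

end Pool.Agent.Retired.MP_094079_nt.ThreeForms
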